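import Mathlib

/-!
Hankel matrices: `c + 1` seeds are necessary.
-/

set_option autoImplicit false

namespace Pool.Agent.TH585.TR

/-- the coefficient matrices of the generic Hankel matrix `(x_{i+j})` of size `c + 1` -/
def hankel (c : ℕ) (k : Fin (2 * c + 1)) : Matrix (Fin (c + 1)) (Fin (c + 1)) ℂ :=
  fun i j => if (i : ℕ) + j = k then 1 else 0

theorem hankel_sum (c : ℕ) (x : ℕ → ℂ) :
    (∑ k : Fin (2 * c + 1), x k • hankel c k) =
      Matrix.of fun i j : Fin (c + 1) => x ((i : ℕ) + j) := by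
  refine Matrix.ext fun i j => ?_
  rw [Matrix.sum_apply]
  have hi := i.isLt
  have hj := j.isLt
  rw [Finset.sum_eq_single (⟨(i : ℕ) + j, by omega⟩ : Fin (2 * c + 1))]
  · simp [hankel]
  · intro k _ hk
    have : (i : ℕ) + j ≠ k := fun h => hk (Fin.ext h.symm)
    simp [hankel, this]
  · intro h
    exact absurd (Finset.mem_univ _) h

theorem hankel_rank (c : ℕ) : ∃ (a : Fin (2 * c + 1) → Fin (2 * c + 1) → ℂ)
    (u : Fin (2 * c + 1) → Fin (c + 1) → ℂ),
    ∀ k, hankel c k = ∑ i, a i k • Matrix.vecMulVec (u i) (u i) := by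
  set V : Matrix (Fin (2 * c + 1)) (Fin (2 * c + 1)) ℂ :=
    Matrix.vandermonde (fun s : Fin (2 * c + 1) => ((s : ℕ) : ℂ)) with hV
  have hdet : V.det ≠ 0 := by
    rw [hV, Matrix.det_vandermonde_ne_zero_iff]
    intro s t h
    have h' : ((s : ℕ) : ℂ) = ((t : ℕ) : ℂ) := h
    exact Fin.ext (by exact_mod_cast h')
  refine ⟨fun s k => V⁻¹ k s, fun s i => ((s : ℕ) : ℂ) ^ (i : ℕ), fun k => ?_⟩
  refine Matrix.ext fun i j => ?_
  have hi := i.isLt
  have hj := j.isLt
  have h1 : (V⁻¹ * V) k (⟨(i : ℕ) + j, by omega⟩ : Fin (2 * c + 1)) = hankel c k i j := by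
    rw [Matrix.nonsing_inv_mul _ (isUnit_iff_ne_zero.2 hdet), Matrix.one_apply]
    unfold hankel
    by_cases h : (i : ℕ) + j = k
    · rw [if_pos h, if_pos (Fin.ext h.symm)]
    · rw [if_neg h, if_neg (fun h' => h (congrArg Fin.val h').symm)]
  rw [← h1, Matrix.mul_apply, Matrix.sum_apply]
  refine Finset.sum_congr rfl fun s _ => ?_
  rw [Matrix.smul_apply, Matrix.vecMulVec_apply, smul_eq_mul, hV, Matrix.vandermonde_apply,
    ← pow_add]

theorem hankel_nonsingular (c : ℕ) : ∃ x : Fin (2 * c + 1) → ℂ,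
    (∑ k, x k • hankel c k).det ≠ 0 := by
  refine ⟨fun k => if (k : ℕ) = c then 1 else 0, ?_⟩
  have h1 := hankel_sum c (fun k => if k = c then (1 : ℂ) else 0)
  have h1' : (∑ k : Fin (2 * c + 1), (if (k : ℕ) = c then (1 : ℂ) else 0) • hankel c k) =
      Matrix.of fun i j : Fin (c + 1) => if (i : ℕ) + j = c then (1 : ℂ) else 0 := h1
  rw [h1']
  set B : Matrix (Fin (c + 1)) (Fin (c + 1)) ℂ :=
    Matrix.of fun i j : Fin (c + 1) => if (i : ℕ) + j = c then (1 : ℂ) else 0 with hB
  have h2 : B * B = 1 := by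
    refine Matrix.ext fun i j => ?_
    have hi := i.isLt
    have hj := j.isLt
    rw [Matrix.mul_apply, Finset.sum_eq_single (⟨c - i, by omega⟩ : Fin (c + 1))]
    · rw [Matrix.one_apply]
      by_cases h : i = j
      · subst h
        have e1 : (i : ℕ) + (c - i) = c := by omega
        have e2 : c - (i : ℕ) + i = c := by omega
        simp [hB, e1, e2]
      · have e2 : ¬ (c - (i : ℕ) + j = c) := fun h' => h (Fin.ext (by omega))
        simp [hB, e2, h]
    · intro k _ hk
      have : ¬ ((i : ℕ) + k = c) := fun h => hk (Fin.ext (by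
        show (k : ℕ) = c - i
        omega))
      simp [hB, this]
    · intro h
      exact absurd (Finset.mem_univ _) h
  intro h0
  have h3 := congrArg Matrix.det h2
  rw [Matrix.det_mul, Matrix.det_one, h0, mul_zero] at h3
  exact zero_ne_one h3

theorem hankel_singular (c : ℕ) (y z : Fin c → ℂ) :
    (∑ k : Fin (2 * c + 1), (∑ t, y t * z t ^ (k : ℕ)) • hankel c k).det = 0 := by
  have h1 := hankel_sum c (fun k => ∑ t, y t * z t ^ k)
  rw [h1]
  set W : Matrix (Fin (c + 1)) (Fin c) ℂ := Matrix.of fun i t => z t ^ (i : ℕ) with hW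
  set W' : Matrix (Fin c) (Fin (c + 1)) ℂ := Matrix.of fun t j => y t * z t ^ (j : ℕ) with hW'
  have h2 : (Matrix.of fun i j : Fin (c + 1) => ∑ t, y t * z t ^ ((i : ℕ) + j)) = W * W' := by
    refine Matrix.ext fun i j => ?_
    rw [Matrix.mul_apply, Matrix.of_apply]
    refine Finset.sum_congr rfl fun t _ => ?_
    rw [hW, hW', Matrix.of_apply, Matrix.of_apply, pow_add]
    ring
  rw [h2]
  by_contra hne
  have h3 := Matrix.rank_of_isUnit (W * W')
    ((Matrix.isUnit_iff_isUnit_det _).2 (isUnit_iff_ne_zero.2 hne))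
  rw [Fintype.card_fin] at h3
  have h4 : (W * W').rank ≤ W.rank := Matrix.rank_mul_le_left _ _
  have h5 : W.rank ≤ c := by
    have := Matrix.rank_le_width W
    simpa using this
  omega

end Pool.Agent.TH585.TR
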