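import Mathlib
import Pool.Agent.H626R2.Clu.Main

/-!
From the moment curve generator `x_i = ∑_t y_t z_t ^ i` to an explicit finite set of integer points.
-/

set_option autoImplicit false

namespace Pool.Agent.TH585.TR

open MvPolynomial Pool.Agent.H626R2.Clu

/-- The curve `z ↦ (1, z, z², …)`. -/
noncomputable def mom (m : ℕ) : Fin m → Polynomial ℂ := fun i => Polynomial.X ^ (i : ℕ)

theorem mom_indep (m : ℕ) : LinearIndependent ℂ (mom m) := by
  have h : LinearIndependent ℂ (fun n : ℕ => (Polynomial.X : Polynomial ℂ) ^ n) := by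
    have := (Polynomial.basisMonomials ℂ).linearIndependent
    simpa [Polynomial.coe_basisMonomials, ← Polynomial.X_pow_eq_monomial] using this
  exact h.comp _ Fin.val_injective

/-- The point with seeds `y, z`: its `i`-th coordinate is `∑_t y_t z_t ^ i`, `i = 0, …, m - 1`. -/
def momPoint (m T : ℕ) (y z : Fin T → ℕ) : Fin m → ℤ :=
  fun i => ∑ t, (y t : ℤ) * (z t : ℤ) ^ (i : ℕ)

/-- The explicit set of all points with seeds `y ∈ {0,…,D}^T`, `z ∈ {0,…,mD}^T`. -/
def momPoints (m T D : ℕ) : Finset (Fin m → ℤ) :=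
  ((Fintype.piFinset fun _ : Fin T => Finset.range (D + 1)) ×ˢ
    (Fintype.piFinset fun _ : Fin T => Finset.range (m * D + 1))).image
    fun yz => momPoint m T yz.1 yz.2

theorem momPoints_card (m T D : ℕ) :
    (momPoints m T D).card ≤ ((D + 1) * (m * D + 1)) ^ T := by
  unfold momPoints
  refine Finset.card_image_le.trans ?_
  rw [Finset.card_product, Fintype.card_piFinset, Fintype.card_piFinset]
  simp [mul_pow]

theorem momPoints_bound (m T D : ℕ) (p : Fin m → ℤ) (hp : p ∈ momPoints m T D) (i : Fin m) :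
    |p i| ≤ ((T * D * (m * D + 1) ^ (m - 1) : ℕ) : ℤ) := by
  unfold momPoints at hp
  rw [Finset.mem_image] at hp
  obtain ⟨⟨y, z⟩, hyz, rfl⟩ := hp
  rw [Finset.mem_product, Fintype.mem_piFinset, Fintype.mem_piFinset] at hyz
  obtain ⟨hy, hz⟩ := hyz
  simp only [Finset.mem_range] at hy hz
  unfold momPoint
  calc |∑ t : Fin T, (y t : ℤ) * (z t : ℤ) ^ (i : ℕ)|
      ≤ ∑ t : Fin T, |(y t : ℤ) * (z t : ℤ) ^ (i : ℕ)| := Finset.abs_sum_le_sum_abs _ _
    _ ≤ ∑ t : Fin T, ((D : ℤ) * ((m * D + 1 : ℕ) : ℤ) ^ (m - 1)) := by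
        apply Finset.sum_le_sum
        intro t _
        rw [abs_of_nonneg (by positivity)]
        have h1 : (y t : ℤ) ≤ D := by exact_mod_cast Nat.lt_succ_iff.1 (hy t)
        have h2 : ((z t : ℤ)) ^ (i : ℕ) ≤ ((m * D + 1 : ℕ) : ℤ) ^ (m - 1) := by
          have h3 : (z t) ^ (i : ℕ) ≤ (m * D + 1) ^ (m - 1) := by
            calc (z t) ^ (i : ℕ) ≤ (m * D + 1) ^ (i : ℕ) := Nat.pow_le_pow_left (hz t).le _
              _ ≤ (m * D + 1) ^ (m - 1) :=
                Nat.pow_le_pow_right (Nat.succ_pos _) (by have := i.isLt; omega)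
          exact_mod_cast h3
        exact mul_le_mul h1 h2 (by positivity) (by positivity)
    _ = ((T * D * (m * D + 1) ^ (m - 1) : ℕ) : ℤ) := by
        rw [Finset.sum_const]
        simp
        ring

/-- the generator with finitely many seeds -/
noncomputable def fg (m T : ℕ) : MvPolynomial (Fin m) ℂ →ₐ[ℂ] MvPolynomial (Fin T ⊕ Fin T) ℂ :=
  aeval fun i => ∑ t : Fin T, X (Sum.inl t) * X (Sum.inr t) ^ (i : ℕ)

theorem ge_eq_fg (m T : ℕ) (f : MvPolynomial (Fin m) ℂ) :
    ge (0 : Fin m → ℂ) (mom m) T f =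
      rename (Sum.map (fun t : Fin T => (t : ℕ)) (fun t : Fin T => (t : ℕ))) (fg m T f) := by
  have h : ge (0 : Fin m → ℂ) (mom m) T =
      (rename (Sum.map (fun t : Fin T => (t : ℕ)) (fun t : Fin T => (t : ℕ)))).comp (fg m T) := by
    apply MvPolynomial.algHom_ext
    intro i
    rw [AlgHom.comp_apply, ge_X]
    unfold gp fg mom
    rw [aeval_X, map_sum, Pi.zero_apply, C_0, zero_add, Finset.sum_range]
    refine Finset.sum_congr rfl fun t _ => ?_
    simp
  rw [h, AlgHom.comp_apply]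

theorem degreeOf_aeval_le {m : ℕ} {τ : Type*} (g : Fin m → MvPolynomial τ ℂ) (v : τ) (B : ℕ)
    (hB : ∀ i, (g i).degreeOf v ≤ B) (f : MvPolynomial (Fin m) ℂ) :
    (MvPolynomial.aeval g f).degreeOf v ≤ B * f.totalDegree := by
  rw [MvPolynomial.aeval_def, MvPolynomial.eval₂_eq']
  refine (MvPolynomial.degreeOf_sum_le _ _ _).trans (Finset.sup_le fun s hs => ?_)
  rw [MvPolynomial.algebraMap_eq]
  refine (MvPolynomial.degreeOf_C_mul_le _ _ _).trans ?_
  refine (MvPolynomial.degreeOf_prod_le _ _ _).trans ?_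
  calc ∑ i, ((g i) ^ (s i)).degreeOf v ≤ ∑ i, s i * B := by
        apply Finset.sum_le_sum
        intro i _
        exact (MvPolynomial.degreeOf_pow_le _ _ _).trans (Nat.mul_le_mul_left _ (hB i))
    _ = B * ∑ i, s i := by rw [← Finset.sum_mul, mul_comm]
    _ ≤ B * f.totalDegree := by
        apply Nat.mul_le_mul_left
        have := MvPolynomial.le_totalDegree hs
        rwa [Finsupp.sum_fintype _ _ (fun _ => rfl)] at this

theorem degreeOf_fg_inl (m T : ℕ) (t : Fin T) (f : MvPolynomial (Fin m) ℂ) :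
    (fg m T f).degreeOf (Sum.inl t) ≤ f.totalDegree := by
  have := degreeOf_aeval_le (fun i : Fin m => ∑ t : Fin T, (X (Sum.inl t) *
    X (Sum.inr t) ^ (i : ℕ) : MvPolynomial (Fin T ⊕ Fin T) ℂ)) (Sum.inl t) 1 ?_ f
  · rwa [one_mul] at this
  · intro i
    refine (MvPolynomial.degreeOf_sum_le _ _ _).trans (Finset.sup_le fun l' _ => ?_)
    refine (MvPolynomial.degreeOf_mul_le _ _ _).trans ?_
    have h1 : (MvPolynomial.X (Sum.inl l') : MvPolynomial (Fin T ⊕ Fin T) ℂ).degreeOf
        (Sum.inl t) ≤ 1 := by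
      classical
      rw [MvPolynomial.degreeOf_X]; split_ifs <;> simp
    have h2 : ((X (Sum.inr l') : MvPolynomial (Fin T ⊕ Fin T) ℂ) ^ (i : ℕ)).degreeOf
        (Sum.inl t) ≤ 0 := by
      refine (MvPolynomial.degreeOf_pow_le _ _ _).trans ?_
      rw [MvPolynomial.degreeOf_X_of_ne (by simp), mul_zero]
    omega

theorem degreeOf_fg_inr (m T : ℕ) (t : Fin T) (f : MvPolynomial (Fin m) ℂ) :
    (fg m T f).degreeOf (Sum.inr t) ≤ m * f.totalDegree := by
  refine degreeOf_aeval_le _ (Sum.inr t) m ?_ f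
  intro i
  refine (MvPolynomial.degreeOf_sum_le _ _ _).trans (Finset.sup_le fun l' _ => ?_)
  refine (MvPolynomial.degreeOf_mul_le _ _ _).trans ?_
  have h1 : (MvPolynomial.X (Sum.inl l') : MvPolynomial (Fin T ⊕ Fin T) ℂ).degreeOf
      (Sum.inr t) = 0 := MvPolynomial.degreeOf_X_of_ne (by simp)
  rw [h1, zero_add]
  refine (MvPolynomial.degreeOf_pow_le _ _ _).trans ?_
  have h2 : (MvPolynomial.X (Sum.inr l') : MvPolynomial (Fin T ⊕ Fin T) ℂ).degreeOf
      (Sum.inr t) ≤ 1 := by
    classical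
    rw [MvPolynomial.degreeOf_X]; split_ifs <;> simp
  have h3 := i.isLt
  calc (i : ℕ) * _ ≤ (i : ℕ) * 1 := Nat.mul_le_mul_left _ h2
    _ ≤ m := by omega

/-- Polynomials not killed by the generator are hit by the explicit set. -/
theorem exists_hit (m T D : ℕ) (f : MvPolynomial (Fin m) ℂ) (hD : f.totalDegree ≤ D)
    (hf : ge (0 : Fin m → ℂ) (mom m) T f ≠ 0) :
    ∃ p ∈ momPoints m T D, MvPolynomial.eval (fun i => (p i : ℂ)) f ≠ 0 := by
  classical
  by_contra hcon
  push Not at hcon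
  apply hf
  rw [ge_eq_fg]
  suffices h : fg m T f = 0 by rw [h, map_zero]
  apply MvPolynomial.eq_zero_of_eval_zero_at_prod_finset _
    (Sum.elim (fun _ : Fin T => (Finset.range (D + 1)).image (fun k : ℕ => (k : ℂ)))
      (fun _ : Fin T => (Finset.range (m * D + 1)).image (fun k : ℕ => (k : ℂ))))
  · rintro (l | l)
    · rw [Sum.elim_inl, Finset.card_image_of_injective _ Nat.cast_injective, Finset.card_range]
      exact Nat.lt_succ_of_le ((degreeOf_fg_inl m T l f).trans hD)
    · rw [Sum.elim_inr, Finset.card_image_of_injective _ Nat.cast_injective, Finset.card_range]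
      exact Nat.lt_succ_of_le ((degreeOf_fg_inr m T l f).trans (Nat.mul_le_mul_left _ hD))
  · intro x hx
    have hy : ∀ l : Fin T, ∃ k ∈ Finset.range (D + 1), ((k : ℕ) : ℂ) = x (Sum.inl l) := by
      intro l
      have := hx (Sum.inl l)
      rw [Sum.elim_inl, Finset.mem_image] at this
      exact this
    have hz : ∀ l : Fin T, ∃ k ∈ Finset.range (m * D + 1), ((k : ℕ) : ℂ) = x (Sum.inr l) := by
      intro l
      have := hx (Sum.inr l)
      rw [Sum.elim_inr, Finset.mem_image] at this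
      exact this
    choose y hy1 hy2 using hy
    choose z hz1 hz2 using hz
    have hp : momPoint m T y z ∈ momPoints m T D := by
      unfold momPoints
      rw [Finset.mem_image]
      refine ⟨(y, z), ?_, rfl⟩
      rw [Finset.mem_product, Fintype.mem_piFinset, Fintype.mem_piFinset]
      exact ⟨hy1, hz1⟩
    have h1 := hcon _ hp
    rw [← h1]
    have h2 : (MvPolynomial.eval x) (fg m T f) =
        MvPolynomial.eval (fun i : Fin m => MvPolynomial.eval x (∑ t : Fin T,
          (X (Sum.inl t) * X (Sum.inr t) ^ (i : ℕ) : MvPolynomial (Fin T ⊕ Fin T) ℂ))) f := by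
      unfold fg
      rw [← MvPolynomial.coe_aeval_eq_eval, ← MvPolynomial.coe_aeval_eq_eval]
      rw [RingHom.coe_coe, RingHom.coe_coe, ← AlgHom.comp_apply, MvPolynomial.comp_aeval]
    rw [h2]
    congr 2
    funext i
    simp only [map_sum, map_mul, map_pow, MvPolynomial.eval_X, momPoint, ← hy2, ← hz2]
    push_cast
    rfl

end Pool.Agent.TH585.TR
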