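import Mathlib
import Pool.Agent.TH585.TR.Grid

/-!
Determinants of matrices `∑ ℓ_i u_i v_iᵀ + U X + Y V` with few summands are clusters of products of
affine forms.
-/

set_option autoImplicit false

namespace Pool.Agent.TH585.TR

open MvPolynomial Pool.Agent.H626R2.Clu

/-- Multilinear expansion of the determinant of a product. -/
theorem det_mul_expand {n : ℕ} {K R : Type*} [Fintype K] [DecidableEq K] [CommRing R]
    (L : Matrix (Fin n) K R) (M : Matrix K (Fin n) R) :
    (L * M).det = ∑ p : Fin n → K, (∏ i, L i (p i)) * (M.submatrix p id).det := by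
  have h1 : (L * M).det = Matrix.detRowAlternating
      (fun i => ∑ k : K, L i k • (fun j => M k j)) := by
    show (L * M).det = Matrix.det (fun i => ∑ k : K, L i k • (fun j => M k j))
    congr 1
    ext i j
    rw [Matrix.mul_apply, Finset.sum_apply]
    rfl
  rw [h1]
  have h2 := MultilinearMap.map_sum (Matrix.detRowAlternating (n := Fin n) (R := R)).toMultilinearMap
    (fun (i : Fin n) (k : K) => L i k • (fun j => M k j))
  refine h2.trans ?_
  refine Finset.sum_congr rfl fun p _ => ?_
  have h3 := MultilinearMap.map_smul_univ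
    (Matrix.detRowAlternating (n := Fin n) (R := R)).toMultilinearMap
    (fun i => L i (p i)) (fun i => (fun j => M (p i) j))
  refine h3.trans ?_
  rw [smul_eq_mul]
  rfl

/-- the determinant has degree at most the sum of bounds for the degrees of the rows -/
theorem totalDegree_det_rows {n : ℕ} {σ : Type*} (W : Matrix (Fin n) (Fin n) (MvPolynomial σ ℂ))
    (d : Fin n → ℕ) (h : ∀ i j, (W i j).totalDegree ≤ d i) : W.det.totalDegree ≤ ∑ i, d i := by
  rw [Matrix.det_apply']
  apply totalDegree_finsetSum_le
  intro s _
  refine (totalDegree_mul _ _).trans ?_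
  have h1 : (((Equiv.Perm.sign s : ℤˣ) : ℤ) : MvPolynomial σ ℂ).totalDegree = 0 := by
    have : (((Equiv.Perm.sign s : ℤˣ) : ℤ) : MvPolynomial σ ℂ) =
        C ((((Equiv.Perm.sign s : ℤˣ) : ℤ) : ℂ)) := by
      simp
    rw [this, totalDegree_C]
  rw [h1, zero_add]
  refine (totalDegree_finsetProd _ _).trans ?_
  calc ∑ i, (W (s i) i).totalDegree ≤ ∑ i, d (s i) := Finset.sum_le_sum fun i _ => h (s i) i
    _ = ∑ i, d i := Equiv.sum_comp s d

/-- vanishing forms can be removed from the index set -/
theorem Fam_filter {σ ι : Type*} [DecidableEq ι] {I : Finset ι} {l : ι → MvPolynomial σ ℂ}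
    {c δ : ℕ} {f : MvPolynomial σ ℂ} (hf : f ∈ Fam I l c δ) (J : Finset ι) (hJ : J ⊆ I)
    (hJ0 : ∀ r ∈ I, r ∉ J → l r = 0) : f ∈ Fam J l c δ := by
  have key : Fam I l c δ ≤ Fam J l c δ := by
    refine Fam_le fun S P hS h1 h2 => ?_
    by_cases h : I \ J ⊆ S
    · have h3 : I \ S = J \ (J ∩ S) := by
        ext x
        simp only [Finset.mem_sdiff, Finset.mem_inter]
        constructor
        · rintro ⟨hx, hxS⟩
          have hxJ : x ∈ J := by
            by_contra hxJ
            exact hxS (h (Finset.mem_sdiff.2 ⟨hx, hxJ⟩))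
          exact ⟨hxJ, fun h => hxS h.2⟩
        · rintro ⟨hx, hxS⟩
          exact ⟨hJ hx, fun h => hxS ⟨hx, h⟩⟩
      rw [h3]
      exact Fam_mk Finset.inter_subset_left
        ((Finset.card_le_card Finset.inter_subset_right).trans h1) h2
    · obtain ⟨x, hx, hxS⟩ := Finset.not_subset.1 h
      rw [Finset.mem_sdiff] at hx
      rw [Finset.prod_eq_zero (Finset.mem_sdiff.2 ⟨hx.1, hxS⟩) (hJ0 x hx.1 hx.2), mul_zero]
      exact Submodule.zero_mem _
  exact key hf

section

variable {σ : Type*} {n N r₁ r₂ : ℕ}

/-- the left factor -/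
noncomputable def lf (l : Fin N → MvPolynomial σ ℂ) (u : Fin N → Fin n → ℂ)
    (U : Matrix (Fin n) (Fin r₁) ℂ) (Y : Matrix (Fin n) (Fin r₂) (MvPolynomial σ ℂ)) :
    Matrix (Fin n) (Fin N ⊕ (Fin r₁ ⊕ Fin r₂)) (MvPolynomial σ ℂ) :=
  fun i => Sum.elim (fun j => C (u j i) * l j) (Sum.elim (fun a => C (U i a)) (fun b => Y i b))

/-- the right factor -/
noncomputable def rf (v : Fin N → Fin n → ℂ)
    (X : Matrix (Fin r₁) (Fin n) (MvPolynomial σ ℂ)) (V : Matrix (Fin r₂) (Fin n) ℂ) :
    Matrix (Fin N ⊕ (Fin r₁ ⊕ Fin r₂)) (Fin n) (MvPolynomial σ ℂ) :=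
  Sum.elim (fun j k => C (v j k)) (Sum.elim (fun a k => X a k) (fun b k => C (V b k)))

/-- Determinants of matrices with few summands are clusters. -/
theorem det_mem_Fam (l : Fin N → MvPolynomial σ ℂ) (u v : Fin N → Fin n → ℂ)
    (U : Matrix (Fin n) (Fin r₁) ℂ) (X : Matrix (Fin r₁) (Fin n) (MvPolynomial σ ℂ))
    (Y : Matrix (Fin n) (Fin r₂) (MvPolynomial σ ℂ)) (V : Matrix (Fin r₂) (Fin n) ℂ) {c e : ℕ}
    (hX : ∀ a j, (X a j).totalDegree ≤ e) (hY : ∀ i b, (Y i b).totalDegree ≤ e)
    (hN : N + r₁ + r₂ ≤ n + c) :
    (lf l u U Y * rf v X V).det ∈ Fam Finset.univ l c (e * (r₁ + r₂)) := by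
  classical
  rw [det_mul_expand]
  refine Submodule.sum_mem _ fun p _ => ?_
  by_cases hp : Function.Injective p
  swap
  · have h0 : ((rf v X V).submatrix p id).det = 0 := by
      rw [Function.Injective] at hp
      push Not at hp
      obtain ⟨i, j, hij, hne⟩ := hp
      refine Matrix.det_zero_of_row_eq hne ?_
      funext k
      simp only [Matrix.submatrix_apply, hij]
    rw [h0, mul_zero]
    exact Submodule.zero_mem _
  -- splitting the left factor
  set g : Fin n → (Fin N ⊕ (Fin r₁ ⊕ Fin r₂)) → MvPolynomial σ ℂ := fun i =>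
    Sum.elim (fun j => C (u j i)) (Sum.elim (fun a => C (U i a)) (fun b => Y i b)) with hg
  set h : (Fin N ⊕ (Fin r₁ ⊕ Fin r₂)) → MvPolynomial σ ℂ :=
    Sum.elim l (fun _ => 1) with hh
  have e1 : ∀ i k, lf l u U Y i k = g i k * h k := by
    intro i k
    rcases k with k | k | k <;> simp [lf, hg, hh]
  set S : Finset (Fin N) := Finset.univ.filter fun j => Sum.inl j ∉ Set.range p with hS
  have e2 : ∏ i, h (p i) = ∏ j ∈ Finset.univ \ S, l j := by
    have h1 : ∏ i, h (p i) = ∏ k ∈ Finset.univ.image p, h k := by
      rw [Finset.prod_image fun a _ b _ hab => hp hab]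
    rw [h1]
    have h2 : ∏ j ∈ Finset.univ \ S, l j =
        ∏ k ∈ (Finset.univ \ S).image (Sum.inl : Fin N → Fin N ⊕ (Fin r₁ ⊕ Fin r₂)), h k := by
      rw [Finset.prod_image fun a _ b _ hab => Sum.inl_injective hab]
      simp [hh]
    rw [h2]
    symm
    refine Finset.prod_subset ?_ ?_
    · intro k hk
      rw [Finset.mem_image] at hk
      obtain ⟨j, hj, rfl⟩ := hk
      simp only [hS, Finset.mem_sdiff, Finset.mem_univ, true_and, Finset.mem_filter,
        not_not, Set.mem_range] at hj
      rw [Finset.mem_image]
      obtain ⟨i, hi⟩ := hj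
      exact ⟨i, Finset.mem_univ _, hi⟩
    · intro k hk hk'
      rcases k with k | k
      · exfalso
        apply hk'
        rw [Finset.mem_image] at hk ⊢
        obtain ⟨i, -, hi⟩ := hk
        refine ⟨k, ?_, rfl⟩
        simp only [hS, Finset.mem_sdiff, Finset.mem_univ, true_and, Finset.mem_filter,
          not_not, Set.mem_range]
        exact ⟨i, hi⟩
      · simp [hh]
  have e3 : (∏ i, lf l u U Y i (p i)) * ((rf v X V).submatrix p id).det =
      ((∏ i, g i (p i)) * ((rf v X V).submatrix p id).det) * ∏ j ∈ Finset.univ \ S, l j := by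
    rw [← e2, Finset.prod_congr rfl fun i _ => e1 i (p i), Finset.prod_mul_distrib]
    ring
  rw [e3]
  refine Fam_mk (Finset.subset_univ _) ?_ ?_
  · -- the number of the omitted forms
    have h1 : (Finset.univ.image p).card = n := by
      rw [Finset.card_image_of_injective _ hp, Finset.card_univ, Fintype.card_fin]
    have h2 : Finset.univ.image p ⊆
        ((Finset.univ \ S).image (Sum.inl : Fin N → Fin N ⊕ (Fin r₁ ⊕ Fin r₂))) ∪
          (Finset.univ.image (Sum.inr : (Fin r₁ ⊕ Fin r₂) → Fin N ⊕ (Fin r₁ ⊕ Fin r₂))) := by
      intro k hk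
      rcases k with k | k
      · rw [Finset.mem_union]
        left
        rw [Finset.mem_image] at hk ⊢
        obtain ⟨i, -, hi⟩ := hk
        refine ⟨k, ?_, rfl⟩
        simp only [hS, Finset.mem_sdiff, Finset.mem_univ, true_and, Finset.mem_filter,
          not_not, Set.mem_range]
        exact ⟨i, hi⟩
      · rw [Finset.mem_union]
        right
        exact Finset.mem_image_of_mem _ (Finset.mem_univ _)
    have h3 := (Finset.card_le_card h2).trans (Finset.card_union_le _ _)
    rw [h1, Finset.card_image_of_injective _ Sum.inl_injective,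
      Finset.card_image_of_injective _ Sum.inr_injective, Finset.card_univ,
      Fintype.card_sum, Fintype.card_fin, Fintype.card_fin,
      Finset.card_sdiff_of_subset (Finset.subset_univ S), Finset.card_univ,
      Fintype.card_fin] at h3
    have h4 : S.card ≤ N := by simpa using Finset.card_le_univ S
    omega
  · -- the degree of the cofactor
    set A : Finset (Fin n) := Finset.univ.filter fun i => ∃ a, p i = Sum.inr (Sum.inl a) with hA
    set B : Finset (Fin n) := Finset.univ.filter fun i => ∃ b, p i = Sum.inr (Sum.inr b) with hB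
    have hAc : A.card ≤ r₁ := by
      have h1 : ∀ i : Fin n, ∃ a : Option (Fin r₁), ∀ a', p i = Sum.inr (Sum.inl a') →
          a = some a' := by
        intro i
        rcases hpi : p i with k | k | k
        · exact ⟨none, fun a' h => by cases h⟩
        · exact ⟨some k, fun a' h => by cases h; rfl⟩
        · exact ⟨none, fun a' h => by cases h⟩
      choose q hq using h1
      have h2 : A.card ≤ (Finset.univ.image (some : Fin r₁ → Option (Fin r₁))).card := by
        refine Finset.card_le_card_of_injOn q ?_ ?_
        · intro i hi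
          rw [Finset.mem_coe, hA, Finset.mem_filter] at hi
          obtain ⟨-, a, ha⟩ := hi
          rw [Finset.mem_coe, hq i a ha]
          exact Finset.mem_image_of_mem _ (Finset.mem_univ _)
        · intro i hi i' hi' hii
          rw [Finset.mem_coe, hA, Finset.mem_filter] at hi hi'
          obtain ⟨-, a, ha⟩ := hi
          obtain ⟨-, a', ha'⟩ := hi'
          have h3 := hq i a ha
          have h4 := hq i' a' ha'
          rw [h3, h4] at hii
          apply hp
          rw [ha, ha', Option.some_injective _ hii]
      rwa [Finset.card_image_of_injective _ (Option.some_injective _), Finset.card_univ,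
        Fintype.card_fin] at h2
    have hBc : B.card ≤ r₂ := by
      have h1 : ∀ i : Fin n, ∃ a : Option (Fin r₂), ∀ a', p i = Sum.inr (Sum.inr a') →
          a = some a' := by
        intro i
        rcases hpi : p i with k | k | k
        · exact ⟨none, fun a' h => by cases h⟩
        · exact ⟨none, fun a' h => by cases h⟩
        · exact ⟨some k, fun a' h => by cases h; rfl⟩
      choose q hq using h1
      have h2 : B.card ≤ (Finset.univ.image (some : Fin r₂ → Option (Fin r₂))).card := by
        refine Finset.card_le_card_of_injOn q ?_ ?_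
        · intro i hi
          rw [Finset.mem_coe, hB, Finset.mem_filter] at hi
          obtain ⟨-, a, ha⟩ := hi
          rw [Finset.mem_coe, hq i a ha]
          exact Finset.mem_image_of_mem _ (Finset.mem_univ _)
        · intro i hi i' hi' hii
          rw [Finset.mem_coe, hB, Finset.mem_filter] at hi hi'
          obtain ⟨-, a, ha⟩ := hi
          obtain ⟨-, a', ha'⟩ := hi'
          have h3 := hq i a ha
          have h4 := hq i' a' ha'
          rw [h3, h4] at hii
          apply hp
          rw [ha, ha', Option.some_injective _ hii]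
      rwa [Finset.card_image_of_injective _ (Option.some_injective _), Finset.card_univ,
        Fintype.card_fin] at h2
    have d1 : (∏ i, g i (p i)).totalDegree ≤ e * r₂ := by
      refine (totalDegree_finsetProd _ _).trans ?_
      calc ∑ i, (g i (p i)).totalDegree ≤ ∑ i, (if i ∈ B then e else 0) := by
            refine Finset.sum_le_sum fun i _ => ?_
            rcases hpi : p i with k | k | k
            · simp [hg]
            · simp [hg]
            · have : i ∈ B := by
                rw [hB, Finset.mem_filter]
                exact ⟨Finset.mem_univ _, k, hpi⟩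
              rw [if_pos this]
              exact hY i k
        _ = B.card * e := by
            rw [← Finset.sum_filter, Finset.sum_const, smul_eq_mul]
            congr 2
            ext i
            simp
        _ ≤ e * r₂ := by
            rw [mul_comm]
            exact Nat.mul_le_mul_left _ hBc
    have d2 : ((rf v X V).submatrix p id).det.totalDegree ≤ e * r₁ := by
      refine (totalDegree_det_rows _ (fun i => if i ∈ A then e else 0) ?_).trans ?_
      · intro i j
        rw [Matrix.submatrix_apply, id]
        rcases hpi : p i with k | k | k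
        · simp [rf]
        · have : i ∈ A := by
            rw [hA, Finset.mem_filter]
            exact ⟨Finset.mem_univ _, k, hpi⟩
          rw [if_pos this]
          exact hX k j
        · simp [rf]
      · have h1 : ∑ i, (if i ∈ A then e else 0) = A.card * e := by
          rw [← Finset.sum_filter, Finset.sum_const, smul_eq_mul]
          congr 2
          ext i
          simp
        rw [h1, mul_comm]
        exact Nat.mul_le_mul_left _ hAc
    refine (totalDegree_mul _ _).trans ?_
    calc _ ≤ e * r₂ + e * r₁ := Nat.add_le_add d1 d2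
      _ = e * (r₁ + r₂) := by ring

end

end Pool.Agent.TH585.TR
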