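import Mathlib
import Pool.Agent.TH585.TR.Det

/-!
Matrices `∑ ℓ_i u_i v_iᵀ + U X + Y V`: compression, degrees, hitting of minors and ranks.
-/

set_option autoImplicit false

namespace Pool.Agent.TH585.TR

open MvPolynomial Pool.Agent.H626R2.Clu

/-- `f` is an affine form. -/
def IsAffine {m : ℕ} (f : MvPolynomial (Fin m) ℂ) : Prop :=
  ∃ (β : ℂ) (a : Fin m → ℂ), f = C β + ∑ k, C (a k) * X k

/-- a matrix of complex numbers as a matrix of constant polynomials -/
noncomputable def cst (m : ℕ) {a b : ℕ} (P : Matrix (Fin a) (Fin b) ℂ) :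
    Matrix (Fin a) (Fin b) (MvPolynomial (Fin m) ℂ) := P.map C

/-- `M = ∑_{i < N} ℓ_i u_i v_iᵀ + U X + Y V` -/
def Shape {m p q : ℕ} (N r₁ r₂ e : ℕ) (M : Matrix (Fin p) (Fin q) (MvPolynomial (Fin m) ℂ)) :
    Prop :=
  ∃ (l : Fin N → MvPolynomial (Fin m) ℂ) (u : Fin N → Fin p → ℂ) (v : Fin N → Fin q → ℂ)
    (U : Matrix (Fin p) (Fin r₁) ℂ) (X : Matrix (Fin r₁) (Fin q) (MvPolynomial (Fin m) ℂ))
    (Y : Matrix (Fin p) (Fin r₂) (MvPolynomial (Fin m) ℂ)) (V : Matrix (Fin r₂) (Fin q) ℂ),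
    (∀ i, IsAffine (l i)) ∧ (∀ a j, (X a j).totalDegree ≤ e) ∧
    (∀ i b, (Y i b).totalDegree ≤ e) ∧
    M = (∑ i, l i • cst m (Matrix.vecMulVec (u i) (v i))) + cst m U * X + Y * cst m V

variable {m p q N r₁ r₂ e : ℕ}

theorem IsAffine.isAf {f : MvPolynomial (Fin m) ℂ} (h : IsAffine f) : IsAf f := h

theorem IsAffine.deg {f : MvPolynomial (Fin m) ℂ} (h : IsAffine f) : f.totalDegree ≤ 1 :=
  h.isAf.deg

theorem cst_mul {a b d : ℕ} (P : Matrix (Fin a) (Fin b) ℂ) (Q : Matrix (Fin b) (Fin d) ℂ) :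
    cst m (P * Q) = cst m P * cst m Q := by
  unfold cst
  exact Matrix.map_mul (f := (C : ℂ →+* MvPolynomial (Fin m) ℂ))

theorem cst_apply {a b : ℕ} (P : Matrix (Fin a) (Fin b) ℂ) (i : Fin a) (j : Fin b) :
    cst m P i j = C (P i j) := rfl

theorem totalDegree_map_C_mul {a b d : ℕ} (P : Matrix (Fin a) (Fin b) ℂ)
    (W : Matrix (Fin b) (Fin d) (MvPolynomial (Fin m) ℂ)) (h : ∀ i j, (W i j).totalDegree ≤ e)
    (i : Fin a) (j : Fin d) : ((cst m P * W) i j).totalDegree ≤ e := by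
  rw [Matrix.mul_apply]
  apply totalDegree_finsetSum_le
  intro k _
  refine (totalDegree_mul _ _).trans ?_
  rw [cst_apply, totalDegree_C, zero_add]
  exact h k j

theorem totalDegree_mul_map_C {a b d : ℕ} (P : Matrix (Fin b) (Fin d) ℂ)
    (W : Matrix (Fin a) (Fin b) (MvPolynomial (Fin m) ℂ)) (h : ∀ i j, (W i j).totalDegree ≤ e)
    (i : Fin a) (j : Fin d) : ((W * cst m P) i j).totalDegree ≤ e := by
  rw [Matrix.mul_apply]
  apply totalDegree_finsetSum_le
  intro k _
  refine (totalDegree_mul _ _).trans ?_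
  rw [cst_apply, totalDegree_C, add_zero]
  exact h i k

/-- compression -/
theorem Shape.compress {M : Matrix (Fin p) (Fin q) (MvPolynomial (Fin m) ℂ)}
    (h : Shape N r₁ r₂ e M) {a b : ℕ} (P : Matrix (Fin a) (Fin p) ℂ)
    (Q : Matrix (Fin q) (Fin b) ℂ) : Shape N r₁ r₂ e (cst m P * M * cst m Q) := by
  obtain ⟨l, u, v, U, X', Y, V, hl, hX, hY, rfl⟩ := h
  refine ⟨l, fun i => P.mulVec (u i), fun i => Matrix.vecMul (v i) Q, P * U, X' * cst m Q,
    cst m P * Y, V * Q, hl, totalDegree_mul_map_C Q X' hX, totalDegree_map_C_mul P Y hY, ?_⟩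
  have h1 : ∀ i, cst m P * (l i • cst m (Matrix.vecMulVec (u i) (v i))) * cst m Q =
      l i • cst m (Matrix.vecMulVec (P.mulVec (u i)) (Matrix.vecMul (v i) Q)) := by
    intro i
    rw [Matrix.mul_smul, Matrix.smul_mul, ← cst_mul, ← cst_mul,
      Matrix.mul_vecMulVec, Matrix.vecMulVec_mul]
  rw [Matrix.mul_add, Matrix.mul_add, Matrix.add_mul, Matrix.add_mul, Matrix.mul_sum,
    Matrix.sum_mul, Finset.sum_congr rfl fun i _ => h1 i, cst_mul, cst_mul]
  simp only [Matrix.mul_assoc]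

/-- the entries have degree at most `e` -/
theorem Shape.deg {M : Matrix (Fin p) (Fin q) (MvPolynomial (Fin m) ℂ)}
    (h : Shape N r₁ r₂ e M) (he : 1 ≤ e) (i : Fin p) (j : Fin q) : (M i j).totalDegree ≤ e := by
  obtain ⟨l, u, v, U, X', Y, V, hl, hX, hY, rfl⟩ := h
  rw [Matrix.add_apply, Matrix.add_apply]
  refine (totalDegree_add _ _).trans (max_le ((totalDegree_add _ _).trans (max_le ?_ ?_)) ?_)
  · rw [Matrix.sum_apply]
    apply totalDegree_finsetSum_le
    intro k _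
    rw [Matrix.smul_apply, smul_eq_mul, cst_apply]
    refine (totalDegree_mul _ _).trans ?_
    rw [totalDegree_C, add_zero]
    exact (hl k).deg.trans he
  · exact totalDegree_map_C_mul U X' hX i j
  · exact totalDegree_mul_map_C V Y hY i j

/-- determinants of square matrices of this shape are clusters -/
theorem Shape.det_cls {n c : ℕ} {M : Matrix (Fin n) (Fin n) (MvPolynomial (Fin m) ℂ)}
    (h : Shape N r₁ r₂ e M) (hN : N + r₁ + r₂ ≤ n + c) : Cls c (e * (r₁ + r₂)) M.det := by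
  classical
  obtain ⟨l, u, v, U, X', Y, V, hl, hX, hY, rfl⟩ := h
  have h1 : (∑ i, l i • cst m (Matrix.vecMulVec (u i) (v i))) + cst m U * X' + Y * cst m V =
      lf l u U Y * rf v X' V := by
    refine Matrix.ext fun i j => ?_
    rw [Matrix.add_apply, Matrix.add_apply, Matrix.sum_apply, Matrix.mul_apply, Matrix.mul_apply,
      Matrix.mul_apply, Fintype.sum_sum_type, Fintype.sum_sum_type, add_assoc]
    congr 1
    refine Finset.sum_congr rfl fun k _ => ?_
    simp only [lf, rf, Sum.elim_inl, Matrix.smul_apply, cst_apply, Matrix.vecMulVec_apply,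
      smul_eq_mul, C_mul]
    ring
  rw [h1]
  have h2 := det_mem_Fam l u v U X' Y V hX hY hN
  have h3 := Fam_filter h2 (Finset.univ.filter fun r => l r ≠ 0) (Finset.filter_subset _ _) (by
    intro r hr hr'
    by_contra hne
    exact hr' (Finset.mem_filter.2 ⟨hr, hne⟩))
  exact ⟨Fin N, inferInstance, _, l, fun r hr => ⟨(hl r).isAf, (Finset.mem_filter.1 hr).2⟩, h3⟩

/-- One cluster is hit by the explicit points. -/
theorem cls_hit {c δ D : ℕ} {f : MvPolynomial (Fin m) ℂ} (hf : Cls c δ f) (hf0 : f ≠ 0)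
    (hD : f.totalDegree ≤ D) :
    ∃ y ∈ momPoints m (c + max δ 1) D, eval (fun i => (y i : ℂ)) f ≠ 0 := by
  refine exists_hit m (c + max δ 1) D f hD fun h => hf0 ?_
  obtain ⟨ι, dι, I, l, hl, hfl⟩ := hf
  exact thmG 0 (mom_indep m) c I l δ _ f hl hfl le_rfl h

/-- a matrix of rank at least `R` has an invertible compression of size `R` -/
theorem exists_compression {R : ℕ} (A : Matrix (Fin p) (Fin q) ℂ) (h : R ≤ A.rank) :
    ∃ (P : Matrix (Fin R) (Fin p) ℂ) (Q : Matrix (Fin q) (Fin R) ℂ), (P * A * Q).det ≠ 0 := by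
  classical
  have h1 : R ≤ Module.finrank ℂ (LinearMap.range A.mulVecLin) := h
  obtain ⟨b, hb⟩ := exists_linearIndependent_of_le_finrank h1
  have h2 : ∀ i : Fin R, ∃ w : Fin q → ℂ, A.mulVec w = (b i : Fin p → ℂ) := by
    intro i
    obtain ⟨w, hw⟩ := (b i).2
    exact ⟨w, hw⟩
  choose w hw using h2
  set Q : Matrix (Fin q) (Fin R) ℂ := fun j i => w i j with hQ
  have hcol : ∀ i, (A * Q).col i = (b i : Fin p → ℂ) := by
    intro i
    rw [← hw i]
    rfl
  have hinj : Function.Injective (A * Q).mulVecLin := by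
    rw [Matrix.coe_mulVecLin, Matrix.mulVec_injective_iff]
    have h3 : LinearIndependent ℂ (fun i => (b i : Fin p → ℂ)) :=
      hb.map' (Submodule.subtype _) (Submodule.ker_subtype _)
    have h4 : (A * Q).col = fun i => (b i : Fin p → ℂ) := funext hcol
    rw [h4]
    exact h3
  obtain ⟨g, hg⟩ := LinearMap.exists_leftInverse_of_injective _ (LinearMap.ker_eq_bot.2 hinj)
  refine ⟨LinearMap.toMatrix' g, Q, ?_⟩
  have h5 : LinearMap.toMatrix' g * (A * Q) = 1 := by
    have h6 := congrArg LinearMap.toMatrix' hg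
    rw [LinearMap.toMatrix'_comp, LinearMap.toMatrix'_id] at h6
    have h7 : LinearMap.toMatrix' (A * Q).mulVecLin = A * Q := LinearMap.toMatrix'_toLin' _
    rwa [h7] at h6
  rw [Matrix.mul_assoc, h5, Matrix.det_one]
  exact one_ne_zero

theorem rank_of_compression {R : ℕ} (A : Matrix (Fin p) (Fin q) ℂ) (P : Matrix (Fin R) (Fin p) ℂ)
    (Q : Matrix (Fin q) (Fin R) ℂ) (h : (P * A * Q).det ≠ 0) : R ≤ A.rank := by
  have h1 : (P * A * Q).rank = R := by
    have h2 := Matrix.rank_of_isUnit (P * A * Q)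
      ((Matrix.isUnit_iff_isUnit_det _).2 (isUnit_iff_ne_zero.2 h))
    rwa [Fintype.card_fin] at h2
  calc R = (P * A * Q).rank := h1.symm
    _ ≤ (P * A).rank := Matrix.rank_mul_le_left _ _
    _ ≤ A.rank := Matrix.rank_mul_le_right _ _

theorem map_eval_compress {a b : ℕ} (M : Matrix (Fin p) (Fin q) (MvPolynomial (Fin m) ℂ))
    (P : Matrix (Fin a) (Fin p) ℂ) (Q : Matrix (Fin q) (Fin b) ℂ) (x : Fin m → ℂ) :
    (cst m P * M * cst m Q).map (eval x) = P * M.map (eval x) * Q := by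
  rw [Matrix.map_mul, Matrix.map_mul]
  have h1 : (cst m P).map (eval x) = P := by
    refine Matrix.ext fun i j => ?_
    rw [Matrix.map_apply, cst_apply, eval_C]
  have h2 : (cst m Q).map (eval x) = Q := by
    refine Matrix.ext fun i j => ?_
    rw [Matrix.map_apply, cst_apply, eval_C]
  rw [h1, h2]

/-- **Ranks.** -/
theorem rank_hit {R c : ℕ} (M : Matrix (Fin p) (Fin q) (MvPolynomial (Fin m) ℂ))
    (h : Shape N r₁ r₂ e M) (he : 1 ≤ e) (hN : N + r₁ + r₂ ≤ R + c)
    (hx : ∃ x : Fin m → ℂ, R ≤ (M.map (eval x)).rank) :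
    ∃ y ∈ momPoints m (c + max (e * (r₁ + r₂)) 1) (e * R),
      R ≤ (M.map (eval fun i => (y i : ℂ))).rank := by
  obtain ⟨x, hx⟩ := hx
  obtain ⟨P, Q, hPQ⟩ := exists_compression _ hx
  have hs := h.compress P Q
  have h1 : eval x (cst m P * M * cst m Q).det ≠ 0 := by
    rw [RingHom.map_det]
    show ((cst m P * M * cst m Q).map (eval x)).det ≠ 0
    rwa [map_eval_compress]
  have h2 : (cst m P * M * cst m Q).det ≠ 0 := fun h0 => h1 (by rw [h0, map_zero])
  have h3 : (cst m P * M * cst m Q).det.totalDegree ≤ e * R := by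
    refine (totalDegree_det_rows _ (fun _ => e) fun i j => hs.deg he i j).trans ?_
    rw [Finset.sum_const, Finset.card_univ, Fintype.card_fin, smul_eq_mul, mul_comm]
  obtain ⟨y, hy, hy'⟩ := cls_hit (hs.det_cls hN) h2 h3
  refine ⟨y, hy, rank_of_compression _ P Q ?_⟩
  rw [RingHom.map_det] at hy'
  have h4 : ((cst m P * M * cst m Q).map (eval fun i => (y i : ℂ))).det ≠ 0 := hy'
  rwa [map_eval_compress] at h4

end Pool.Agent.TH585.TR
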